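import Mathlib
import Pool.Agent.R987.Bern

/-!
# A 4-regular quasi-transitive graph with a factor-of-iid perfect matching, but without
factor-of-iid balanced orientations and Schreier decorations

Take copies `K i`, `i ∈ ℤ`, of the complete graph on four vertices. Join `K (2 m)` and `K (2 m + 1)`
by three disjoint edges, and `K (2 m - 1)` and `K (2 m)` by one edge between the two remaining
vertices. The edges between different copies are the edges lying in no triangle; they form a
perfect matching, which is invariant under all automorphisms. In a balanced orientation, the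
bridges between `K (2 m - 1)` and `K (2 m)`, `m ∈ ℤ`, all point in the same direction. By ergodicity
this direction is deterministic for a factor of iid, contradicting the reflection symmetry.
-/

set_option autoImplicit false

open MeasureTheory ProbabilityTheory Filter Topology Set

namespace Pool.Agent.Results.MP_71d783_pr.MatchingWithoutOrientation

/-- The law of independent labels, uniform on the unit interval, at the vertices. -/
noncomputable def labelLaw (V : Type) : Measure (V → unitInterval) :=
  Measure.infinitePi (fun _ : V => (volume : Measure unitInterval))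

/-- `Φ` is a factor map: a measurable map from labellings of the vertices to decorations (marks on
the ordered pairs of vertices) that commutes with all automorphisms of `G`. -/
structure IsFactor {V : Type} (G : SimpleGraph V) {C : Type} [MeasurableSpace C]
    (Φ : (V → unitInterval) → V → V → C) : Prop where
  measurable : Measurable Φ
  equivariant : ∀ (γ : G ≃g G) (ω : V → unitInterval) (u v : V),
    Φ (fun w => ω (γ.symm w)) (γ u) (γ v) = Φ ω u v

/-- `Φ` is a factor map in the weaker sense: for every automorphism, `Φ` commutes with it at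
almost every labelling. -/
structure IsFactorAE {V : Type} (G : SimpleGraph V) {C : Type} [MeasurableSpace C]
    (Φ : (V → unitInterval) → V → V → C) : Prop where
  measurable : Measurable Φ
  equivariant : ∀ γ : G ≃g G, ∀ᵐ ω ∂(labelLaw V), ∀ u v : V,
    Φ (fun w => ω (γ.symm w)) (γ u) (γ v) = Φ ω u v

/-- `M` is (the indicator of) a perfect matching of `G`: a set of edges such that every vertex lies
in exactly one of them. -/
def IsPerfectMatching {V : Type} (G : SimpleGraph V) (M : V → V → Bool) : Prop :=
  (∀ u v, M u v = M v u) ∧ (∀ u v, M u v = true → G.Adj u v) ∧ ∀ u, ∃! v, M u v = true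

/-- `o` is a balanced orientation of the `2 d`-regular graph `G`, where `o u v = true` means that
the edge `uv` points from `u` to `v`: every edge has exactly one direction, and every vertex has
out-degree `d` and in-degree `d`. -/
def IsBalancedOrientation {V : Type} (G : SimpleGraph V) (d : ℕ) (o : V → V → Bool) : Prop :=
  (∀ u v, G.Adj u v → o u v = !(o v u)) ∧
    ∀ v, {u | G.Adj v u ∧ o v u = true}.ncard = d ∧ {u | G.Adj v u ∧ o u v = true}.ncard = d

/-- `s` is a Schreier decoration of the `2 d`-regular graph `G`, where `(s u v).1` is the colour of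
the edge `uv` and `(s u v).2 = true` means that it points from `u` to `v`: colours are symmetric,
every edge has exactly one direction, and at every vertex, for every colour, exactly one outgoing
and exactly one incoming edge have that colour. -/
def IsSchreierDecoration {V : Type} (G : SimpleGraph V) (d : ℕ) (s : V → V → Fin d × Bool) :
    Prop :=
  (∀ u v, G.Adj u v → (s u v).1 = (s v u).1 ∧ (s u v).2 = !(s v u).2) ∧
    ∀ v i, (∃! u, G.Adj v u ∧ s v u = (i, true)) ∧ (∃! u, G.Adj v u ∧ s u v = (i, true))

/-- The automorphism group of `G` has finitely many orbits on the vertices. -/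
def QuasiTransitive {V : Type} (G : SimpleGraph V) : Prop :=
  ∃ F : Set V, F.Finite ∧ ∀ v, ∃ γ : G ≃g G, γ v ∈ F

/-- The vertices of the example. -/
abbrev W : Type := ℤ × Fin 4

/-- The end of the edge leaving the complete graph of `x`. -/
def partner (x : W) : W :=
  if x.2 = 0 then (if Even x.1 then (x.1 - 1, x.2) else (x.1 + 1, x.2))
  else (if Even x.1 then (x.1 + 1, x.2) else (x.1 - 1, x.2))

theorem partner_snd (x : W) : (partner x).2 = x.2 := by
  unfold partner; split_ifs <;> rfl

theorem partner_fst_ne (x : W) : (partner x).1 ≠ x.1 := by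
  unfold partner; split_ifs <;> simp

theorem partner_partner (x : W) : partner (partner x) = x := by
  obtain ⟨i, j⟩ := x
  by_cases hj : j = 0 <;> by_cases hi : Even i
  · have : ¬ Even (i - 1) := by rw [Int.even_sub]; simp [hi]
    simp [partner, hj, hi, this]
  · have : Even (i + 1) := by rw [Int.even_add]; simp [hi]
    simp [partner, hj, hi, this]
  · have : ¬ Even (i + 1) := by rw [Int.even_add]; simp [hi]
    simp [partner, hj, hi, this]
  · have : Even (i - 1) := by rw [Int.even_sub]; simp [hi]
    simp [partner, hj, hi, this]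

/-- The graph. -/
def G : SimpleGraph W where
  Adj x y := (x.1 = y.1 ∧ x.2 ≠ y.2) ∨ partner x = y
  symm := by
    constructor
    rintro x y (⟨h1, h2⟩ | h)
    · exact Or.inl ⟨h1.symm, h2.symm⟩
    · right; rw [← h, partner_partner]
  loopless := by
    constructor
    rintro x (⟨_, h2⟩ | h)
    · exact h2 rfl
    · exact partner_fst_ne x (congrArg Prod.fst h)

theorem adj_iff (x y : W) : G.Adj x y ↔ (x.1 = y.1 ∧ x.2 ≠ y.2) ∨ partner x = y := Iff.rfl

theorem adj_partner (x : W) : G.Adj x (partner x) := Or.inr rfl

/-- The neighbours of a vertex. -/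
def nb (x : W) (k : Fin 4) : W := if k = x.2 then partner x else (x.1, k)

theorem nb_injective (x : W) : Function.Injective (nb x) := by
  intro k l h
  unfold nb at h
  split_ifs at h with h1 h2 h2
  · rw [h1, h2]
  · exact absurd (congrArg Prod.fst h) (partner_fst_ne x)
  · exact absurd (congrArg Prod.fst h).symm (partner_fst_ne x)
  · exact congrArg Prod.snd h

theorem adj_nb (x y : W) : G.Adj x y ↔ ∃ k, nb x k = y := by
  constructor
  · rintro (⟨h1, h2⟩ | h)
    · exact ⟨y.2, by rw [nb, if_neg (Ne.symm h2), h1]⟩
    · exact ⟨x.2, by rw [nb, if_pos rfl, h]⟩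
  · rintro ⟨k, rfl⟩
    by_cases hk : k = x.2
    · rw [nb, if_pos hk]; exact adj_partner x
    · rw [nb, if_neg hk]; exact Or.inl ⟨rfl, Ne.symm hk⟩

theorem regular (x : W) : (G.neighborSet x).ncard = 2 * 2 := by
  have : G.neighborSet x = Set.range (nb x) := by
    ext y
    rw [SimpleGraph.mem_neighborSet, adj_nb]
    rfl
  rw [this, ← Set.image_univ, Set.ncard_image_of_injective _ (nb_injective x), Set.ncard_univ]
  simp

/-- Translations. -/
def tr (k : ℤ) : G ≃g G where
  toFun x := (x.1 + 2 * k, x.2)
  invFun x := (x.1 - 2 * k, x.2)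
  left_inv x := by simp
  right_inv x := by simp
  map_rel_iff' := by
    rintro ⟨i, j⟩ ⟨i', j'⟩
    have he : Even (i + 2 * k) ↔ Even i := by
      rw [Int.even_add]; simp
    simp only [adj_iff, Equiv.coe_fn_mk, partner, he]
    constructor
    · rintro (⟨h1, h2⟩ | h)
      · exact Or.inl ⟨by linarith, h2⟩
      · right
        split_ifs at h ⊢ <;> simp only [Prod.mk.injEq] at h ⊢ <;>
          exact ⟨by linarith [h.1], h.2⟩
    · rintro (⟨h1, h2⟩ | h)
      · exact Or.inl ⟨by linarith, h2⟩
      · right
        split_ifs at h ⊢ <;> simp only [Prod.mk.injEq] at h ⊢ <;>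
          exact ⟨by linarith [h.1], h.2⟩

/-- The reflection. -/
def mirror : G ≃g G where
  toFun x := (-1 - x.1, x.2)
  invFun x := (-1 - x.1, x.2)
  left_inv x := by simp
  right_inv x := by simp
  map_rel_iff' := by
    rintro ⟨i, j⟩ ⟨i', j'⟩
    have he : Even (-1 - i) ↔ ¬ Even i := by
      rw [Int.even_sub]
      simp
    simp only [adj_iff, Equiv.coe_fn_mk, partner, he]
    constructor
    · rintro (⟨h1, h2⟩ | h)
      · exact Or.inl ⟨by linarith, h2⟩
      · right
        by_cases hi : Even i <;> simp only [hi, not_true_eq_false, not_false_eq_true, if_true,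
          if_false] at h ⊢ <;> split_ifs at h ⊢ <;> simp only [Prod.mk.injEq] at h ⊢ <;>
          exact ⟨by linarith [h.1], h.2⟩
    · rintro (⟨h1, h2⟩ | h)
      · exact Or.inl ⟨by linarith, h2⟩
      · right
        by_cases hi : Even i <;> simp only [hi, not_true_eq_false, not_false_eq_true, if_true,
          if_false] at h ⊢ <;> split_ifs at h ⊢ <;> simp only [Prod.mk.injEq] at h ⊢ <;>
          exact ⟨by linarith [h.1], h.2⟩

theorem quasiTransitive : QuasiTransitive G := by
  refine ⟨({0, 1} : Set ℤ) ×ˢ (Set.univ : Set (Fin 4)), ?_, ?_⟩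
  · exact (Set.toFinite _).prod (Set.toFinite _)
  · rintro ⟨i, j⟩
    rcases Int.even_or_odd' i with ⟨m, hm | hm⟩
    · exact ⟨tr (-m), by simp [tr, hm]⟩
    · refine ⟨tr (-m), ?_⟩
      simp [tr, hm]

theorem connected : G.Connected := by
  have h1 : ∀ (i : ℤ) (j j' : Fin 4), G.Reachable (i, j) (i, j') := by
    intro i j j'
    by_cases h : j = j'
    · subst h; exact SimpleGraph.Reachable.refl _
    · exact SimpleGraph.Adj.reachable (Or.inl ⟨rfl, h⟩)
  have h2 : ∀ i : ℤ, G.Reachable (i, 0) (i + 1, 0) := by
    intro i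
    by_cases hi : Even i
    · have h3 : G.Adj (i, 1) (i + 1, 1) := by right; simp [partner, hi]
      exact ((h1 i 0 1).trans h3.reachable).trans (h1 (i + 1) 1 0)
    · have h3 : G.Adj (i, 0) (i + 1, 0) := by right; simp [partner, hi]
      exact h3.reachable
  have h3 : ∀ i : ℤ, G.Reachable (0, 0) (i, 0) := by
    intro i
    induction i using Int.induction_on with
    | zero => exact SimpleGraph.Reachable.refl _
    | succ i ih => exact ih.trans (h2 _)
    | pred i ih =>
      have := h2 (-(i : ℤ) - 1)
      rw [sub_add_cancel] at this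
      exact ih.trans this.symm
  have : Nonempty W := ⟨(0, 0)⟩
  refine ⟨fun x y => ?_⟩
  exact (((h3 x.1).trans (h1 x.1 0 x.2)).symm).trans ((h3 y.1).trans (h1 y.1 0 y.2))

/-- The edges lying in no triangle. -/
def Outer (x y : W) : Prop := G.Adj x y ∧ ¬ ∃ z, G.Adj x z ∧ G.Adj y z

theorem outer_iff (x y : W) : Outer x y ↔ partner x = y := by
  constructor
  · rintro ⟨h | h, hz⟩
    · exfalso
      apply hz
      obtain ⟨k, hk1, hk2⟩ : ∃ k : Fin 4, k ≠ x.2 ∧ k ≠ y.2 := by
        generalize x.2 = a
        generalize y.2 = b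
        revert a b
        decide
      exact ⟨(x.1, k), Or.inl ⟨rfl, hk1.symm⟩, Or.inl ⟨h.1.symm, hk2.symm⟩⟩
    · exact h
  · rintro rfl
    refine ⟨adj_partner x, ?_⟩
    rintro ⟨z, h1 | h1, h2 | h2⟩
    · exact partner_fst_ne x (h2.1.trans h1.1.symm)
    · rw [partner_partner] at h2
      rw [← h2] at h1
      exact h1.2 rfl
    · rw [← h1] at h2
      exact h2.2 rfl
    · rw [partner_partner] at h2
      rw [← h2] at h1
      exact partner_fst_ne x (congrArg Prod.fst h1)

theorem outer_equivariant (γ : G ≃g G) (x y : W) : Outer (γ x) (γ y) ↔ Outer x y := by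
  unfold Outer
  rw [γ.map_adj_iff]
  refine and_congr_right fun _ => not_congr ?_
  constructor
  · rintro ⟨z, h1, h2⟩
    refine ⟨γ.symm z, ?_, ?_⟩
    · rw [← γ.map_adj_iff]; simpa using h1
    · rw [← γ.map_adj_iff]; simpa using h2
  · rintro ⟨z, h1, h2⟩
    exact ⟨γ z, γ.map_adj_iff.2 h1, γ.map_adj_iff.2 h2⟩

open Classical in
/-- The perfect matching, a constant factor map. -/
noncomputable def PM : (W → unitInterval) → W → W → Bool := fun _ x y => decide (Outer x y)

theorem factor_PM : IsFactor G PM :=
  ⟨measurable_const, fun γ _ u v => decide_eq_decide.2 (outer_equivariant γ u v)⟩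

theorem isPerfectMatching_PM (ω : W → unitInterval) : IsPerfectMatching G (PM ω) := by
  refine ⟨fun u v => ?_, fun u v h => ?_, fun u => ⟨partner u, ?_, fun v h => ?_⟩⟩
  · have : Outer u v ↔ Outer v u := by
      rw [outer_iff, outer_iff]
      constructor
      · intro h; rw [← h, partner_partner]
      · intro h; rw [← h, partner_partner]
    exact decide_eq_decide.2 this
  · simp only [PM, decide_eq_true_eq] at h
    exact h.1
  · simp [PM, outer_iff]
  · simp only [PM, decide_eq_true_eq, outer_iff] at h
    exact h.symm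

/-- The sign of a bit. -/
def sg (b : Bool) : ℤ := if b then 1 else -1

theorem sg_not (b : Bool) : sg (!b) = - sg b := by cases b <;> rfl

theorem sg_injective : Function.Injective sg := by
  intro a b h; cases a <;> cases b <;> simp_all [sg]

theorem sum_nb {o : W → W → Bool} (h : IsBalancedOrientation G 2 o) (x : W) :
    ∑ k, sg (o x (nb x k)) = 0 := by
  classical
  have h1 := (h.2 x).1
  have e : {u | G.Adj x u ∧ o x u = true} =
      nb x '' ((Finset.univ.filter fun k => o x (nb x k) = true : Finset (Fin 4)) : Set (Fin 4)) := by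
    ext u
    simp only [Set.mem_ofPred_eq, adj_nb, Finset.coe_filter, Finset.mem_univ, true_and,
      Set.mem_image]
    constructor
    · rintro ⟨⟨k, rfl⟩, h⟩; exact ⟨k, h, rfl⟩
    · rintro ⟨k, h, rfl⟩; exact ⟨⟨k, rfl⟩, h⟩
  rw [e, Set.ncard_image_of_injective _ (nb_injective x), Set.ncard_coe_finset] at h1
  have h2 : ∀ k, sg (o x (nb x k)) = 2 * (if o x (nb x k) = true then 1 else 0) - 1 := by
    intro k; cases o x (nb x k) <;> rfl
  simp_rw [h2]
  rw [Finset.sum_sub_distrib, ← Finset.mul_sum, Finset.sum_boole, h1]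
  simp

theorem sum_partner {o : W → W → Bool} (h : IsBalancedOrientation G 2 o) (i : ℤ) :
    ∑ j, sg (o (i, j) (partner (i, j))) = 0 := by
  have h1 : ∑ j, ∑ k, sg (o (i, j) (nb (i, j) k)) = 0 :=
    Finset.sum_eq_zero fun j _ => sum_nb h (i, j)
  have anti : ∀ j k : Fin 4, j ≠ k → sg (o (i, j) (i, k)) = - sg (o (i, k) (i, j)) := by
    intro j k hjk
    have : G.Adj (i, j) (i, k) := Or.inl ⟨rfl, hjk⟩
    rw [h.1 _ _ this, sg_not]
  simp only [Fin.sum_univ_four, nb] at h1 ⊢
  have a01 := anti 0 1 (by decide)
  have a02 := anti 0 2 (by decide)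
  have a03 := anti 0 3 (by decide)
  have a12 := anti 1 2 (by decide)
  have a13 := anti 1 3 (by decide)
  have a23 := anti 2 3 (by decide)
  simp at h1
  linarith

theorem bridge {o : W → W → Bool} (h : IsBalancedOrientation G 2 o) :
    o (1, 0) (2, 0) = o (-1, 0) (0, 0) := by
  have h0 := sum_partner h 0
  have h1 := sum_partner h 1
  have anti : ∀ x : W, sg (o (partner x) x) = - sg (o x (partner x)) := by
    intro x
    rw [h.1 _ _ (adj_partner x).symm, sg_not]
  have e1 := anti (0, 1)
  have e2 := anti (0, 2)
  have e3 := anti (0, 3)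
  have e0 := anti (0, 0)
  have p00 : partner (0, 0) = (-1, 0) := by simp [partner]
  have p01 : partner (0, 1) = (1, 1) := by simp [partner]
  have p02 : partner (0, 2) = (1, 2) := by simp [partner]
  have p03 : partner (0, 3) = (1, 3) := by simp [partner]
  have p10 : partner (1, 0) = (2, 0) := by simp [partner]
  have p11 : partner (1, 1) = (0, 1) := by simp [partner]
  have p12 : partner (1, 2) = (0, 2) := by simp [partner]
  have p13 : partner (1, 3) = (0, 3) := by simp [partner]
  simp only [Fin.sum_univ_four, p00, p01, p02, p03, p10, p11, p12, p13] at h0 h1 e0 e1 e2 e3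
  apply sg_injective
  linarith

theorem map_perm (γ : G ≃g G) :
    (labelLaw W).map (fun ω : W → unitInterval => fun w => ω (γ.symm w)) = labelLaw W :=
  Pool.Agent.R987.Bern.map_comp (volume : Measure unitInterval) (fun w => γ.symm w)
    γ.symm.injective

theorem no_orientation (Φ : (W → unitInterval) → W → W → Bool) (hΦ : IsFactorAE G Φ)
    (hb : ∀ᵐ ω ∂(labelLaw W), IsBalancedOrientation G 2 (Φ ω)) : False := by
  set A : Set (W → unitInterval) := {ω | Φ ω (-1, 0) (0, 0) = true} with hA
  have hAm : MeasurableSet A := by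
    have h1 : Measurable (fun ω => Φ ω (-1, 0) (0, 0)) :=
      (measurable_pi_apply (0, 0)).comp ((measurable_pi_apply (-1, 0)).comp hΦ.measurable)
    exact h1 (measurableSet_singleton true)
  have mp : ∀ γ : G ≃g G, MeasurePreserving
      (fun ω : W → unitInterval => fun w => ω (γ.symm w)) (labelLaw W) (labelLaw W) :=
    fun γ => ⟨Pool.Agent.R987.Bern.measurable_comp _, map_perm γ⟩
  have h1 : ∀ᵐ ω ∂(labelLaw W), ω ∈ A ↔ (fun w => ω ((tr 1).symm w)) ∈ A := by
    have hb' := (mp (tr 1)).quasiMeasurePreserving.ae hb
    filter_upwards [hΦ.equivariant (tr 1), hb'] with ω h2 h3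
    have h4 := h2 (-1, 0) (0, 0)
    have e1 : (tr 1) ((-1, 0) : W) = (1, 0) := by simp [tr]
    have e2 : (tr 1) ((0, 0) : W) = (2, 0) := by simp [tr]
    rw [e1, e2, bridge h3] at h4
    simp only [hA, Set.mem_ofPred_eq, h4]
  have h2 : ∀ᵐ ω ∂(labelLaw W), (fun w => ω (mirror.symm w)) ∈ A ↔ ω ∉ A := by
    have hb' := (mp mirror).quasiMeasurePreserving.ae hb
    filter_upwards [hΦ.equivariant mirror, hb'] with ω h2 h3
    have h4 := h2 (-1, 0) (0, 0)
    have e1 : mirror ((-1, 0) : W) = (0, 0) := by simp [mirror]
    have e2 : mirror ((0, 0) : W) = (-1, 0) := by simp [mirror]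
    have hadj : G.Adj (0, 0) (-1, 0) := by right; simp [partner]
    rw [e1, e2, h3.1 _ _ hadj] at h4
    simp only [hA, Set.mem_ofPred_eq, ← h4]
    simp
  have h3 : labelLaw W A = 0 ∨ labelLaw W A = 1 := by
    refine Pool.Agent.R987.Bern.ergodic (volume : Measure unitInterval)
      (fun w : W => (tr 1).symm w) (tr 1).symm.injective ?_ hAm h1
    intro F
    have hit : ∀ (n : ℕ) (x : W), (fun w : W => (tr 1).symm w)^[n] x = (x.1 - 2 * n, x.2) := by
      intro n
      induction n with
      | zero => intro x; simp
      | succ n ih =>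
        intro x
        rw [Function.iterate_succ_apply', ih]
        have : (tr 1).symm ((x.1 - 2 * (n : ℤ), x.2) : W) =
          (x.1 - 2 * (n : ℤ) - 2 * 1, x.2) := rfl
        rw [this]
        push_cast
        congr 1
        ring
    obtain ⟨N, hN⟩ : ∃ N : ℕ, ∀ x ∈ F, |x.1| ≤ N := by
      refine ⟨F.sup fun x => x.1.natAbs, fun x hx => ?_⟩
      have := Finset.le_sup (f := fun x : W => x.1.natAbs) hx
      rw [Int.abs_eq_natAbs]
      exact_mod_cast this
    refine ⟨N + 1, fun x hx hx2 => ?_⟩
    rw [hit] at hx2
    have h5 := hN _ hx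
    have h6 := hN _ hx2
    simp only at h6
    rw [abs_le] at h5 h6
    push_cast at h6
    have : (0 : ℤ) ≤ N := Int.natCast_nonneg N
    linarith [h5.1, h5.2, h6.1, h6.2]
  have : IsProbabilityMeasure (labelLaw W) := by unfold labelLaw; infer_instance
  have h4 : labelLaw W A = labelLaw W Aᶜ := by
    conv_lhs => rw [← (mp mirror).2]
    rw [Measure.map_apply (mp mirror).1 hAm]
    apply measure_congr
    filter_upwards [h2] with ω hω
    exact propext hω
  rw [measure_compl hAm (measure_ne_top _ _), measure_univ] at h4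
  rcases h3 with h3 | h3 <;> rw [h3] at h4 <;> simp at h4

theorem no_schreier (Φ : (W → unitInterval) → W → W → Fin 2 × Bool) (hΦ : IsFactorAE G Φ)
    (hb : ∀ᵐ ω ∂(labelLaw W), IsSchreierDecoration G 2 (Φ ω)) : False := by
  refine no_orientation (fun ω u v => (Φ ω u v).2) ⟨?_, ?_⟩ ?_
  · refine measurable_pi_lambda _ fun u => measurable_pi_lambda _ fun v => ?_
    exact measurable_snd.comp ((measurable_pi_apply v).comp
      ((measurable_pi_apply u).comp hΦ.measurable))
  · intro γ
    filter_upwards [hΦ.equivariant γ] with ω h u v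
    rw [h u v]
  · filter_upwards [hb] with ω h
    refine ⟨fun u v huv => (h.1 u v huv).2, fun v => ⟨?_, ?_⟩⟩
    · obtain ⟨a, ha, ha'⟩ := (h.2 v 0).1
      obtain ⟨b, hb, hb'⟩ := (h.2 v 1).1
      have hab : a ≠ b := by
        rintro rfl
        have := ha.2.symm.trans hb.2
        simp at this
      have : {u | G.Adj v u ∧ (Φ ω v u).2 = true} = {a, b} := by
        ext u
        simp only [Set.mem_ofPred_eq, Set.mem_insert_iff, Set.mem_singleton_iff]
        constructor
        · rintro ⟨h1, h2⟩
          have h3 : (Φ ω v u).1 = 0 ∨ (Φ ω v u).1 = 1 := by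
            generalize (Φ ω v u).1 = c
            revert c; decide
          rcases h3 with h3 | h3
          · left; exact ha' u ⟨h1, Prod.ext h3 h2⟩
          · right; exact hb' u ⟨h1, Prod.ext h3 h2⟩
        · rintro (rfl | rfl)
          · exact ⟨ha.1, by rw [ha.2]⟩
          · exact ⟨hb.1, by rw [hb.2]⟩
      rw [this, Set.ncard_pair hab]
    · obtain ⟨a, ha, ha'⟩ := (h.2 v 0).2
      obtain ⟨b, hb, hb'⟩ := (h.2 v 1).2
      have hab : a ≠ b := by
        rintro rfl
        have := ha.2.symm.trans hb.2
        simp at this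
      have : {u | G.Adj v u ∧ (Φ ω u v).2 = true} = {a, b} := by
        ext u
        simp only [Set.mem_ofPred_eq, Set.mem_insert_iff, Set.mem_singleton_iff]
        constructor
        · rintro ⟨h1, h2⟩
          have h3 : (Φ ω u v).1 = 0 ∨ (Φ ω u v).1 = 1 := by
            generalize (Φ ω u v).1 = c
            revert c; decide
          rcases h3 with h3 | h3
          · left; exact ha' u ⟨h1, Prod.ext h3 h2⟩
          · right; exact hb' u ⟨h1, Prod.ext h3 h2⟩
        · rintro (rfl | rfl)
          · exact ⟨ha.1, by rw [ha.2]⟩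
          · exact ⟨hb.1, by rw [hb.2]⟩
      rw [this, Set.ncard_pair hab]

/-- There is a connected 4-regular quasi-transitive graph with a factor-of-iid perfect matching
(commuting with all automorphisms at all labellings), which has neither a factor-of-iid Schreier
decoration nor a factor-of-iid balanced orientation, even if equivariance is only required almost
everywhere. -/
theorem result : ∃ (V : Type) (_ : Countable V) (G : SimpleGraph V),
    G.Connected ∧ (∀ v, (G.neighborSet v).ncard = 2 * 2) ∧ QuasiTransitive G ∧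
    (∃ Φ : (V → unitInterval) → V → V → Bool, IsFactor G Φ ∧
      ∀ ω, IsPerfectMatching G (Φ ω)) ∧
    (¬ ∃ Φ : (V → unitInterval) → V → V → Fin 2 × Bool, IsFactorAE G Φ ∧
      ∀ᵐ ω ∂(labelLaw V), IsSchreierDecoration G 2 (Φ ω)) ∧
    ¬ ∃ Φ : (V → unitInterval) → V → V → Bool, IsFactorAE G Φ ∧
      ∀ᵐ ω ∂(labelLaw V), IsBalancedOrientation G 2 (Φ ω) :=
  ⟨W, inferInstance, G, connected, regular, quasiTransitive,
    ⟨PM, factor_PM, isPerfectMatching_PM⟩,
    fun ⟨Φ, h1, h2⟩ => no_schreier Φ h1 h2, fun ⟨Φ, h1, h2⟩ => no_orientation Φ h1 h2⟩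

end Pool.Agent.Results.MP_71d783_pr.MatchingWithoutOrientation
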